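import Pool.Agent.N89.HX.Stm

/-!
# Project HX (helper89), ONE (helper803): the density theorem for specialisations over `k(x)`
-/

set_option autoImplicit false

namespace Pool.Agent.N803.HX.ONE

open Polynomial Pool.Agent.N89.HX

/-! ### Functoriality -/

/-- the values of the coefficients of the resolvent -/
noncomputable def ev {A : Type} [CommRing A] {e : ℕ} (P : MvPolynomial (Fin (e + 1) ⊕ Fin e) ℤ)
    (f : Fin (e + 1) → A) (ω : Fin e → A) : A := MvPolynomial.aeval (Sum.elim f ω) P

theorem ev_hom {A B : Type} [CommRing A] [CommRing B] (φ : A →+* B) {e : ℕ}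
    (P : MvPolynomial (Fin (e + 1) ⊕ Fin e) ℤ) (f : Fin (e + 1) → A) (ω : Fin e → A) :
    φ (ev P f ω) = ev P (fun i => φ (f i)) (fun i => φ (ω i)) := by
  have h1 := MvPolynomial.comp_aeval (Sum.elim f ω) (φ.toIntAlgHom)
  have h2 := DFunLike.congr_fun h1 P
  have e1 : (fun i => φ.toIntAlgHom (Sum.elim f ω i)) =
      Sum.elim (fun i => φ (f i)) (fun i => φ (ω i)) := by
    funext i
    cases i <;> rfl
  rw [e1] at h2
  exact h2

theorem ev_eval₂ {A : Type} [CommRing A] {e : ℕ} (P : MvPolynomial (Fin (e + 1) ⊕ Fin e) ℤ)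
    (f : Fin (e + 1) → A) (ω : Fin e → A) :
    ev P f ω = MvPolynomial.eval₂ (Int.castRingHom A) (Sum.elim f ω) P := by
  unfold ev
  rw [MvPolynomial.aeval_def]
  rfl

theorem rs_eq {A : Type} [CommRing A] {e : ℕ}
    (R : Fin e.factorial → MvPolynomial (Fin (e + 1) ⊕ Fin e) ℤ) (f : Fin (e + 1) → A)
    (ω : Fin e → A) :
    rs R f ω = X ^ e.factorial + ∑ i : Fin e.factorial, C (ev (R i) f ω) * X ^ (i : ℕ) := rfl

/-- monic polynomials -/
noncomputable def low {A : Type} [CommRing A] {d : ℕ} (a : Fin d → A) : A[X] :=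
  X ^ d + ∑ i : Fin d, C (a i) * X ^ (i : ℕ)

theorem rs_low {A : Type} [CommRing A] {e : ℕ}
    (R : Fin e.factorial → MvPolynomial (Fin (e + 1) ⊕ Fin e) ℤ) (f : Fin (e + 1) → A)
    (ω : Fin e → A) : rs R f ω = low (fun i => ev (R i) f ω) := rfl

/-- the rows of `bp` -/
noncomputable def row {A : Type} [CommRing A] {B' : ℕ} (h : Fin (B' + 1) → A) : A[X] :=
  ∑ j, C (h j) * X ^ (j : ℕ)

theorem bp_low {A : Type} [CommRing A] {D B' : ℕ} (h : Fin D → Fin (B' + 1) → A) :
    bp h = low (fun i => row (h i)) := rfl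

theorem rs_map {A B : Type} [CommRing A] [CommRing B] (φ : A →+* B) {e : ℕ}
    (R : Fin e.factorial → MvPolynomial (Fin (e + 1) ⊕ Fin e) ℤ) (f : Fin (e + 1) → A)
    (ω : Fin e → A) :
    (rs R f ω).map φ = rs R (fun i => φ (f i)) (fun i => φ (ω i)) := by
  rw [rs_eq, rs_eq, Polynomial.map_add, Polynomial.map_pow, map_X, Polynomial.map_sum]
  congr 1
  refine Finset.sum_congr rfl fun i _ => ?_
  rw [Polynomial.map_mul, map_C, Polynomial.map_pow, map_X, ev_hom]

theorem mono_map {A B : Type} [CommRing A] [CommRing B] (φ : A →+* B) {e : ℕ}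
    (f : Fin (e + 1) → A) : (mono f).map φ = mono (fun i => φ (f i)) := by
  unfold mono
  rw [Polynomial.map_add, Polynomial.map_pow, map_X, Polynomial.map_sum]
  congr 1
  refine Finset.sum_congr rfl fun i _ => ?_
  rw [Polynomial.map_mul, map_C, Polynomial.map_pow, map_X, map_mul, map_pow]

/-! ### Monic polynomials given by coefficients -/

theorem low_degree {A : Type} [CommRing A] {d : ℕ} (a : Fin d → A) :
    (∑ i : Fin d, C (a i) * X ^ (i : ℕ) : A[X]).degree < d := Polynomial.degree_sum_fin_lt a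

theorem monic_low {A : Type} [CommRing A] {d : ℕ} (a : Fin d → A) :
    (X ^ d + ∑ i : Fin d, C (a i) * X ^ (i : ℕ) : A[X]).Monic :=
  monic_X_pow_add (low_degree a)

theorem natDegree_low {A : Type} [CommRing A] [Nontrivial A] {d : ℕ} (a : Fin d → A) :
    (X ^ d + ∑ i : Fin d, C (a i) * X ^ (i : ℕ) : A[X]).natDegree = d :=
  natDegree_eq_of_degree_eq_some (by
    rw [degree_add_eq_left_of_degree_lt (by rw [degree_X_pow]; exact low_degree a), degree_X_pow])

theorem coeff_low {A : Type} [CommRing A] {d : ℕ} (a : Fin d → A) (i : Fin d) :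
    (X ^ d + ∑ i : Fin d, C (a i) * X ^ (i : ℕ) : A[X]).coeff i = a i := by
  rw [coeff_add, coeff_X_pow, if_neg i.2.ne, zero_add, finsetSum_coeff,
    Finset.sum_eq_single i]
  · rw [coeff_C_mul, coeff_X_pow, if_pos rfl, mul_one]
  · intro j _ hj
    rw [coeff_C_mul, coeff_X_pow, if_neg (fun h => hj (Fin.ext h.symm)), mul_zero]
  · intro h
    exact absurd (Finset.mem_univ i) h

/-- the roots of a monic polynomial -/
theorem exists_W {M : Type} [Field M] [IsAlgClosed M] {e : ℕ} (p : M[X]) (hm : p.Monic)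
    (hd : p.natDegree = e) : ∃ W : Fin e → M, p = ∏ i, (X - C (W i)) := by
  have h1 := (IsAlgClosed.splits p).eq_prod_roots_of_monic hm
  have h2 : p.roots.card = e := by
    rw [← hd]
    exact (IsAlgClosed.splits p).natDegree_eq_card_roots.symm
  obtain ⟨l, hl⟩ : ∃ l, l = p.roots.toList := ⟨_, rfl⟩
  have h3 : (l : Multiset M) = p.roots := by rw [hl, Multiset.coe_toList]
  have h4 : l.length = e := by rw [← h2, ← h3, Multiset.coe_card]
  subst h4
  refine ⟨fun i => l[i.1], ?_⟩
  rw [Fin.prod_univ_fun_getElem l (fun a => X - C a)]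
  conv_lhs => rw [h1, ← h3]
  rw [Multiset.map_coe, Multiset.prod_coe]

theorem exists_mono {M : Type} [Field M] [IsAlgClosed M] {e : ℕ} (f : Fin (e + 1) → M) :
    ∃ W : Fin e → M, mono f = ∏ i, (X - C (W i)) :=
  exists_W _ (monic_low _) (natDegree_low _)

/-! ### Invariance under permutations -/

theorem rs_perm {e : ℕ} (R : Res e) {A : Type} [CommRing A] [IsDomain A] (f : Fin (e + 1) → A)
    (ω : Fin e → A) (σ : Equiv.Perm (Fin e)) :
    rs R.R f (fun i => ω (σ i)) = rs R.R f ω := by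
  obtain ⟨ι, hι⟩ : ∃ ι : A →+* AlgebraicClosure (FractionRing A), Function.Injective ι :=
    ⟨(algebraMap (FractionRing A) (AlgebraicClosure (FractionRing A))).comp
      (algebraMap A (FractionRing A)),
      (algebraMap (FractionRing A) (AlgebraicClosure (FractionRing A))).injective.comp
        (IsFractionRing.injective A (FractionRing A))⟩
  apply Polynomial.map_injective ι hι
  rw [rs_map, rs_map]
  obtain ⟨W, hW⟩ := exists_mono (fun i => ι (f i))
  rw [R.spec _ _ _ W hW, R.spec _ _ _ W hW]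
  refine Fintype.prod_equiv (Equiv.mulRight σ⁻¹) _ _ fun τ => ?_
  congr 2
  rw [← Equiv.sum_comp σ (fun i => ι (ω i) * W ((Equiv.mulRight σ⁻¹ τ) i))]
  refine Finset.sum_congr rfl fun i _ => ?_
  simp

/-- the coefficients are invariant -/
theorem ev_perm {e : ℕ} (R : Res e) {A : Type} [CommRing A] [IsDomain A] (f : Fin (e + 1) → A)
    (ω : Fin e → A) (σ : Equiv.Perm (Fin e)) (i : Fin e.factorial) :
    ev (R.R i) f (fun i => ω (σ i)) = ev (R.R i) f ω := by
  have h1 := rs_perm R f ω σ
  rw [rs_eq, rs_eq] at h1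
  have h2 := coeff_low (fun i => ev (R.R i) f (fun i => ω (σ i))) i
  have h3 := coeff_low (fun i => ev (R.R i) f ω) i
  rw [← h2, ← h3, h1]

/-! ### The leading coefficient -/

theorem mono_zero {M : Type} [Field M] {m : ℕ} (f : Fin (m + 2) → M) (h : f (Fin.last (m + 1)) = 0) :
    mono f = ∏ i : Fin (m + 1), (X - C (if i = Fin.last m then -f (Fin.last m).castSucc else 0)) := by
  unfold mono
  rw [Fin.sum_univ_castSucc, Fin.prod_univ_castSucc, h]
  have e1 : ∑ i : Fin m, C ((0 : M) ^ (m + 1 - 1 - (i.castSucc : ℕ)) * f i.castSucc.castSucc) *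
      X ^ (i.castSucc : ℕ) = (0 : M[X]) := by
    refine Finset.sum_eq_zero fun i _ => ?_
    have h1 : m + 1 - 1 - (i.castSucc : ℕ) ≠ 0 := by
      have := i.2
      rw [Fin.val_castSucc]
      omega
    rw [zero_pow h1, zero_mul, C_0, zero_mul]
  have e2 : ∏ i : Fin m, (X - C (if i.castSucc = Fin.last m then -f (Fin.last m).castSucc
      else (0 : M))) = X ^ m := by
    rw [Finset.prod_congr rfl (g := fun _ => (X : M[X])) fun i _ => ?_]
    · rw [Finset.prod_const, Finset.card_univ, Fintype.card_fin]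
    · rw [if_neg (Fin.castSucc_lt_last i).ne, C_0, sub_zero]
  rw [e1, e2, if_pos rfl, zero_add]
  have e3 : m + 1 - 1 - ((Fin.last m : Fin (m + 1)) : ℕ) = 0 := by
    rw [Fin.val_last]
    omega
  rw [e3, pow_zero, one_mul, Fin.val_last, C_neg, sub_neg_eq_add, pow_succ]
  ring

theorem not_irr {A ι : Type} [CommRing A] [IsDomain A] [Fintype ι] [DecidableEq ι]
    (c : ι → A) (h : 2 ≤ Fintype.card ι) : ¬ Irreducible (∏ i, (X - C (c i)) : A[X]) := by
  intro hirr
  have hne : Nonempty ι := Fintype.card_pos_iff.1 (by omega)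
  obtain ⟨a⟩ := hne
  rw [← Finset.mul_prod_erase Finset.univ _ (Finset.mem_univ a)] at hirr
  rcases hirr.isUnit_or_isUnit rfl with h1 | h1
  · exact not_isUnit_X_sub_C _ h1
  · have h2 : (∏ i ∈ Finset.univ.erase a, (X - C (c i)) : A[X]).Monic :=
      monic_prod_of_monic _ _ fun i _ => monic_X_sub_C _
    have h3 := natDegree_eq_zero_of_isUnit h1
    rw [natDegree_prod_of_monic _ _ fun i _ => monic_X_sub_C _] at h3
    simp only [natDegree_X_sub_C, Finset.sum_const, smul_eq_mul, mul_one] at h3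
    rw [Finset.card_erase_of_mem (Finset.mem_univ a), Finset.card_univ] at h3
    omega

theorem last_ne {e : ℕ} (he : 2 ≤ e) (R : Res e) {A : Type} [CommRing A] [IsDomain A]
    (G : Fin (e + 1) → A) (ω : Fin e → A) (hirr : Irreducible (rs R.R G ω)) :
    G (Fin.last e) ≠ 0 := by
  intro h0
  obtain ⟨m, rfl⟩ : ∃ m, e = m + 1 := ⟨e - 1, by omega⟩
  have hι := IsFractionRing.injective A (FractionRing A)
  obtain ⟨W, hW⟩ : ∃ W : Fin (m + 1) → A,
      W = fun i => if i = Fin.last m then -G (Fin.last m).castSucc else 0 := ⟨_, rfl⟩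
  have h1 : mono (fun i => algebraMap A (FractionRing A) (G i)) =
      ∏ i, (X - C (algebraMap A (FractionRing A) (W i))) := by
    rw [mono_zero _ (by rw [h0, map_zero])]
    refine Finset.prod_congr rfl fun i _ => ?_
    rw [hW]
    simp only
    split_ifs
    · rw [map_neg (algebraMap A (FractionRing A))]
    · rw [map_zero (algebraMap A (FractionRing A))]
  have h2 : rs R.R G ω = ∏ τ : Equiv.Perm (Fin (m + 1)), (X - C (∑ i, ω i * W (τ i))) := by
    apply Polynomial.map_injective _ hι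
    rw [rs_map, R.spec _ _ _ _ h1, Polynomial.map_prod]
    refine Finset.prod_congr rfl fun τ _ => ?_
    rw [Polynomial.map_sub, map_X, map_C, map_sum (algebraMap A (FractionRing A))]
    congr 2
    exact Finset.sum_congr rfl fun i _ => (map_mul _ _ _).symm
  rw [h2] at hirr
  refine not_irr _ ?_ hirr
  rw [Fintype.card_perm, Fintype.card_fin]
  calc 2 = Nat.factorial 2 := rfl
    _ ≤ (m + 1).factorial := Nat.factorial_le he

/-! ### Elements fixed by the Frobenius -/

theorem mem_of_pow {k Ω : Type} [Field k] [Fintype k] [Field Ω] [Algebra k Ω] {x : Ω}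
    (h : x ^ Fintype.card k = x) : ∃ y : k, algebraMap k Ω y = x := by
  classical
  have hq : 1 < Fintype.card k := Fintype.one_lt_card
  have hp0 : (X ^ Fintype.card k - X : Polynomial Ω) ≠ 0 := FiniteField.X_pow_card_sub_X_ne_zero Ω hq
  have hpd : (X ^ Fintype.card k - X : Polynomial Ω).natDegree = Fintype.card k :=
    FiniteField.X_pow_card_sub_X_natDegree_eq Ω hq
  obtain ⟨S, hS⟩ : ∃ S : Finset Ω, S = Finset.univ.image (algebraMap k Ω) := ⟨_, rfl⟩
  have hSc : S.card = Fintype.card k := by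
    rw [hS, Finset.card_image_of_injective _ (algebraMap k Ω).injective, Finset.card_univ]
  have hsub : S ⊆ (X ^ Fintype.card k - X : Polynomial Ω).roots.toFinset := by
    intro y hy
    rw [hS] at hy
    obtain ⟨a, -, rfl⟩ := Finset.mem_image.1 hy
    rw [Multiset.mem_toFinset, mem_roots hp0, IsRoot.def, eval_sub, eval_pow, eval_X, ← map_pow,
      FiniteField.pow_card, sub_self]
  have hle : (X ^ Fintype.card k - X : Polynomial Ω).roots.toFinset.card ≤ S.card := by
    rw [hSc]
    refine ((Multiset.toFinset_card_le _).trans (card_roots' _)).trans ?_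
    rw [hpd]
  have hx : x ∈ (X ^ Fintype.card k - X : Polynomial Ω).roots.toFinset := by
    rw [Multiset.mem_toFinset, mem_roots hp0, IsRoot.def, eval_sub, eval_pow, eval_X, h, sub_self]
  rw [← Finset.eq_of_subset_of_card_le hsub hle, hS] at hx
  obtain ⟨a, -, ha⟩ := Finset.mem_image.1 hx
  exact ⟨a, ha⟩

/-! ### Descent to `k` -/

theorem bp_map {A B : Type} [CommRing A] [CommRing B] (φ : A →+* B) {D B' : ℕ}
    (h : Fin D → Fin (B' + 1) → A) :
    (bp h).map (mapRingHom φ) = bp (fun i j => φ (h i j)) := by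
  unfold bp
  rw [Polynomial.map_add, Polynomial.map_pow, map_X, Polynomial.map_sum]
  congr 1
  refine Finset.sum_congr rfl fun i _ => ?_
  rw [Polynomial.map_mul, map_C, Polynomial.map_pow, map_X, coe_mapRingHom, Polynomial.map_sum]
  congr 2
  refine Finset.sum_congr rfl fun j _ => ?_
  rw [Polynomial.map_mul, map_C, Polynomial.map_pow, map_X]

theorem ev_natDegree {A : Type} [CommRing A] {e : ℕ} (P : MvPolynomial (Fin (e + 1) ⊕ Fin e) ℤ)
    (f : Fin (e + 1) → A[X]) (ω : Fin e → A[X]) (B : ℕ) (hf : ∀ i, (f i).natDegree ≤ B)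
    (hω : ∀ i, (ω i).natDegree ≤ B) : (ev P f ω).natDegree ≤ P.totalDegree * B := by
  have h1 : ev P f ω = MvPolynomial.aeval (Sum.elim f ω) (P.map (Int.castRingHom A)) := by
    rw [ev_eval₂, MvPolynomial.aeval_def, MvPolynomial.eval₂_map]
    congr 1
  rw [h1]
  refine MvPolynomial.aeval_natDegree_le _ ?_ _ ?_
  · unfold MvPolynomial.totalDegree
    exact Finset.sup_mono (MvPolynomial.support_map_subset _ _)
  · rintro (j | j)
    · exact hf j
    · exact hω j

theorem descend {e : ℕ} (R : Res e) {k Ω : Type} [Field k] [Fintype k] [Field Ω] [Algebra k Ω]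
    (B : ℕ) (g : Fin (e + 1) → k[X]) (hg : ∀ i, (g i).natDegree ≤ B) (σ : Equiv.Perm (Fin e))
    (ω : Fin e → Ω) (hω : ∀ i, ω i ^ Fintype.card k = ω (σ i)) (B' : ℕ)
    (hB' : ∀ i, (R.R i).totalDegree * B ≤ B') :
    ∃ h : Fin e.factorial → Fin (B' + 1) → k,
      rs R.R (fun i => (g i).map (algebraMap k Ω)) (fun i => C (ω i)) =
        bp (fun i j => algebraMap k Ω (h i j)) := by
  obtain ⟨a, ha⟩ : ∃ a : Fin e.factorial → Polynomial Ω, ∀ i, a i =
      ev (R.R i) (fun i => (g i).map (algebraMap k Ω)) (fun i => C (ω i)) := ⟨_, fun _ => rfl⟩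
  have hdeg : ∀ i, (a i).natDegree ≤ B' := by
    intro i
    rw [ha]
    refine (ev_natDegree _ _ _ B (fun i => ?_) (fun i => ?_)).trans (hB' i)
    · exact natDegree_map_le.trans (hg i)
    · rw [natDegree_C]
      exact Nat.zero_le _
  obtain ⟨Φ, hΦ, hΦk⟩ : ∃ Φ : Ω →+* Ω, (∀ x, Φ x = x ^ Fintype.card k) ∧
      Φ.comp (algebraMap k Ω) = algebraMap k Ω :=
    ⟨(FiniteField.frobeniusAlgHom k Ω).toRingHom, fun x => rfl,
      (FiniteField.frobeniusAlgHom k Ω).comp_algebraMap⟩
  have hfr : ∀ i, (a i).map Φ = a i := by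
    intro i
    rw [ha, ← coe_mapRingHom, ev_hom]
    have e1 : (fun i => mapRingHom Φ ((g i).map (algebraMap k Ω))) =
        fun i => (g i).map (algebraMap k Ω) := by
      funext i
      rw [coe_mapRingHom, Polynomial.map_map, hΦk]
    have e2 : (fun i => mapRingHom Φ (C (ω i) : Polynomial Ω)) =
        fun i => (fun i => (C (ω i) : Polynomial Ω)) (σ i) := by
      funext i
      rw [coe_mapRingHom, map_C, hΦ, hω]
    rw [e1, e2]
    exact ev_perm R (fun i => (g i).map (algebraMap k Ω)) (fun i => (C (ω i) : Polynomial Ω)) σ i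
  have hfix : ∀ i j, ∃ y : k, algebraMap k Ω y = (a i).coeff j := by
    intro i j
    apply mem_of_pow
    rw [← hΦ, ← coeff_map, hfr]
  choose h hh using hfix
  refine ⟨fun i j => h i j, ?_⟩
  have h3 : ∀ i, a i = row (fun j : Fin (B' + 1) => algebraMap k Ω (h i j)) := by
    intro i
    unfold row
    rw [Fin.sum_univ_eq_sum_range (fun j => C (algebraMap k Ω (h i j)) * X ^ j) (B' + 1)]
    conv_lhs => rw [(a i).as_sum_range_C_mul_X_pow' (Nat.lt_succ_of_le (hdeg i))]
    refine Finset.sum_congr rfl fun j _ => ?_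
    rw [hh]
  rw [rs_low, bp_low]
  congr 1
  funext i
  rw [← ha i]
  exact h3 i

/-! ### The points -/

theorem pol_of_mono {M : Type} [Field M] {e : ℕ} (he : 1 ≤ e) (f : Fin (e + 1) → M)
    (W : Fin e → M) (h0 : f (Fin.last e) ≠ 0) (h : mono f = ∏ i, (X - C (W i))) :
    pol f = C (f (Fin.last e)) * ∏ i, (X - C (W i / f (Fin.last e))) := by
  obtain ⟨a, ha⟩ : ∃ a, a = f (Fin.last e) := ⟨_, rfl⟩
  rw [← ha] at h0 ⊢
  have h1 : (mono f).comp (C a * X) = C (a ^ (e - 1)) * pol f := by
    unfold mono pol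
    rw [Fin.sum_univ_castSucc, ← ha, add_comp, pow_comp, X_comp, mul_pow, ← C_pow, Fin.val_last,
      Polynomial.sum_comp, mul_add, Finset.mul_sum, add_comm]
    congr 1
    · refine Finset.sum_congr rfl fun i _ => ?_
      rw [mul_comp, C_comp, pow_comp, X_comp, mul_pow, ← C_pow, Fin.val_castSucc, ← mul_assoc,
        ← mul_assoc, ← C_mul, ← C_mul]
      congr 2
      have h2 : a ^ (e - 1) = a ^ (e - 1 - (i : ℕ)) * a ^ (i : ℕ) := by
        rw [← pow_add]
        congr 1
        have := i.2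
        omega
      rw [h2]
      ring
    · rw [← mul_assoc, ← C_mul, ← pow_succ]
      congr 3
      omega
  have h2 : (∏ i, (X - C (W i))).comp (C a * X) = C (a ^ e) * ∏ i, (X - C (W i / a)) := by
    rw [prod_comp]
    have e1 : ∀ i, (X - C (W i)).comp (C a * X) = C a * (X - C (W i / a)) := by
      intro i
      rw [sub_comp, X_comp, C_comp, mul_sub, ← C_mul, mul_div_cancel₀ _ h0]
    rw [Finset.prod_congr rfl fun i _ => e1 i, Finset.prod_mul_distrib, Finset.prod_const,
      Finset.card_univ, Fintype.card_fin, C_pow]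
  rw [h, h2] at h1
  have h3 : C (a ^ (e - 1)) ≠ (0 : M[X]) := C_ne_zero.2 (pow_ne_zero _ h0)
  apply mul_left_cancel₀ h3
  rw [← h1, ← mul_assoc, ← C_mul, ← pow_succ]
  congr 3
  omega

theorem pol_map {A B : Type} [CommRing A] [CommRing B] (φ : A →+* B) {e : ℕ}
    (f : Fin (e + 1) → A) : (pol f).map φ = pol (fun i => φ (f i)) := by
  unfold pol
  rw [Polynomial.map_sum]
  refine Finset.sum_congr rfl fun i _ => ?_
  rw [Polynomial.map_mul, map_C, Polynomial.map_pow, map_X]

theorem point {e : ℕ} (he : 1 ≤ e) (R : Res e) {k Ω : Type} [Field k] [Fintype k] [Field Ω]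
    [IsAlgClosed Ω] [Algebra k Ω] (f : Fin (e + 1) → k) (hf : f (Fin.last e) ≠ 0)
    (σ : Equiv.Perm (Fin e)) (ω : Fin e → Ω) (hω : ∀ i, ω i ^ Fintype.card k = ω (σ i))
    (hsep : (rs R.R (fun i => algebraMap k Ω (f i)) ω).Separable) (z : k)
    (hz : (rs R.R (fun i => algebraMap k Ω (f i)) ω).eval (algebraMap k Ω z) = 0) :
    HasType Ω f σ := by
  obtain ⟨W, hW⟩ := exists_mono (fun i => algebraMap k Ω (f i))
  obtain ⟨v, hv⟩ : ∃ v : Equiv.Perm (Fin e) → Ω, ∀ τ, v τ = ∑ i, ω i * W (τ i) :=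
    ⟨_, fun _ => rfl⟩
  have hrs : rs R.R (fun i => algebraMap k Ω (f i)) ω = ∏ τ, (X - C (v τ)) := by
    rw [R.spec _ _ _ W hW]
    exact Finset.prod_congr rfl fun τ _ => by rw [hv]
  have hvi : Function.Injective v := by
    rw [hrs] at hsep
    exact separable_prod_X_sub_C_iff.1 hsep
  have hWi : Function.Injective W := by
    intro a b hab
    by_contra hne
    have h1 : v (Equiv.swap a b) = v 1 := by
      rw [hv, hv]
      refine Finset.sum_congr rfl fun i _ => ?_
      congr 1
      rw [Equiv.Perm.one_apply]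
      by_cases h2 : i = a
      · rw [h2, Equiv.swap_apply_left, hab]
      · by_cases h3 : i = b
        · rw [h3, Equiv.swap_apply_right, hab]
        · rw [Equiv.swap_apply_of_ne_of_ne h2 h3]
    have h2 := hvi h1
    have h3 := congrArg (fun π : Equiv.Perm (Fin e) => π a) h2
    simp only [Equiv.swap_apply_left, Equiv.Perm.one_apply] at h3
    exact hne h3.symm
  -- the Frobenius
  obtain ⟨Φ, hΦ, hΦk⟩ : ∃ Φ : Ω →+* Ω, (∀ x, Φ x = x ^ Fintype.card k) ∧
      Φ.comp (algebraMap k Ω) = algebraMap k Ω :=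
    ⟨(FiniteField.frobeniusAlgHom k Ω).toRingHom, fun x => rfl,
      (FiniteField.frobeniusAlgHom k Ω).comp_algebraMap⟩
  have hΦk' : ∀ x : k, Φ (algebraMap k Ω x) = algebraMap k Ω x := fun x =>
    RingHom.congr_fun hΦk x
  have hex : ∀ i, ∃ j, Φ (W i) = W j := by
    intro i
    have h1 : (mono fun i => algebraMap k Ω (f i)).eval (W i) = 0 := by
      rw [hW, eval_prod]
      exact Finset.prod_eq_zero (Finset.mem_univ i) (by rw [eval_sub, eval_X, eval_C, sub_self])
    have h2 : (mono fun i => algebraMap k Ω (f i)).eval (Φ (W i)) = 0 := by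
      have h3 : (mono fun i => algebraMap k Ω (f i)).map Φ =
          mono fun i => algebraMap k Ω (f i) := by
        rw [mono_map]
        simp only [hΦk']
      rw [← h3, eval_map_apply, h1, map_zero]
    rw [hW, eval_prod] at h2
    obtain ⟨j, -, hj⟩ := Finset.prod_eq_zero_iff.1 h2
    rw [eval_sub, eval_X, eval_C, sub_eq_zero] at hj
    exact ⟨j, hj⟩
  choose π₀ hπ₀ using hex
  have hπi : Function.Injective π₀ := by
    intro a b hab
    apply hWi
    apply Φ.injective
    rw [hπ₀, hπ₀, hab]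
  obtain ⟨π, hπ⟩ : ∃ π : Equiv.Perm (Fin e), ∀ i, Φ (W i) = W (π i) :=
    ⟨Equiv.ofBijective π₀ (Finite.injective_iff_bijective.1 hπi), fun i => hπ₀ i⟩
  -- the root
  obtain ⟨τ, hτ⟩ : ∃ τ, algebraMap k Ω z = v τ := by
    rw [hrs, eval_prod] at hz
    obtain ⟨τ, -, hτ⟩ := Finset.prod_eq_zero_iff.1 hz
    rw [eval_sub, eval_X, eval_C, sub_eq_zero] at hτ
    exact ⟨τ, hτ⟩
  have hpt : π * τ = τ * σ := by
    have h1 : v (π * τ * σ⁻¹) = v τ := by
      rw [← hτ]
      conv_rhs => rw [← hΦk' z, hτ, hv, map_sum]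
      rw [hv, ← Equiv.sum_comp σ]
      refine Finset.sum_congr rfl fun i _ => ?_
      rw [map_mul, hΦ (ω i), hω, hπ]
      simp
    have h2 := hvi h1
    rw [mul_inv_eq_iff_eq_mul] at h2
    exact h2
  refine ⟨fun i => W (τ i) / algebraMap k Ω (f (Fin.last e)), ⟨hf, ?_, ?_⟩, ?_⟩
  · intro a b hab
    have h0 : algebraMap k Ω (f (Fin.last e)) ≠ 0 :=
      (map_ne_zero_iff _ (algebraMap k Ω).injective).2 hf
    simp only at hab
    exact τ.injective (hWi ((div_left_inj' h0).1 hab))
  · rw [pol_map, pol_of_mono he _ W ((map_ne_zero_iff _ (algebraMap k Ω).injective).2 hf) hW]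
    congr 1
    exact (Equiv.prod_comp τ fun i => (X - C (W i / algebraMap k Ω (f (Fin.last e))))).symm
  · intro i
    rw [← hΦ, map_div₀, hπ, hΦk']
    have h3 : π (τ i) = τ (σ i) := by
      have := congrArg (fun ρ : Equiv.Perm (Fin e) => ρ i) hpt
      simpa using this
    rw [h3]

/-! ### The theorem -/

/-- the specialisation of `bp h` at `x`, in `Ω` -/
theorem spec_map {e : ℕ} (R : Res e) {k Ω : Type} [Field k] [Field Ω] [Algebra k Ω] {B' : ℕ}
    (g : Fin (e + 1) → k[X]) (ω : Fin e → Ω) (h : Fin e.factorial → Fin (B' + 1) → k)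
    (hh : rs R.R (fun i => (g i).map (algebraMap k Ω)) (fun i => C (ω i)) =
        bp (fun i j => algebraMap k Ω (h i j))) (x : k) :
    ((bp h).map (evalRingHom x)).map (algebraMap k Ω) =
      rs R.R (fun i => algebraMap k Ω ((g i).eval x)) ω := by
  have h1 := congrArg (Polynomial.map (evalRingHom (algebraMap k Ω x))) hh
  rw [rs_map, ← bp_map, Polynomial.map_map] at h1
  have e1 : (evalRingHom (algebraMap k Ω x)).comp (mapRingHom (algebraMap k Ω)) =
      (algebraMap k Ω).comp (evalRingHom x) := by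
    apply Polynomial.ringHom_ext
    · intro a
      simp
    · simp
  have e2 : (fun i => evalRingHom (algebraMap k Ω x) ((g i).map (algebraMap k Ω))) =
      fun i => algebraMap k Ω ((g i).eval x) := by
    funext i
    rw [coe_evalRingHom, eval_map_apply]
  have e3 : (fun i => evalRingHom (algebraMap k Ω x) (C (ω i))) = ω := by
    funext i
    rw [coe_evalRingHom, eval_C]
  rw [e1, e2, e3] at h1
  rw [Polynomial.map_map]
  exact h1.symm

theorem bp_monic {A : Type} [CommRing A] {D B' : ℕ} (h : Fin D → Fin (B' + 1) → A) :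
    (bp h).Monic := by
  rw [bp_low]
  exact monic_low _

theorem bp_deg {A : Type} [CommRing A] [Nontrivial A] {D B' : ℕ}
    (h : Fin D → Fin (B' + 1) → A) : (bp h).natDegree = D := by
  rw [bp_low]
  exact natDegree_low _

/-- the number of the points of the resolvent -/
theorem count {e : ℕ} (he : 1 ≤ e) (R : Res e) {k Ω : Type} [Field k] [Fintype k] [Field Ω]
    [IsAlgClosed Ω] [Algebra k Ω] {B B' : ℕ} (g : Fin (e + 1) → k[X])
    (hg : ∀ i, (g i).natDegree ≤ B) (hlast : g (Fin.last e) ≠ 0)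
    (σ : Equiv.Perm (Fin e)) (ω : Fin e → Ω) (hω : ∀ i, ω i ^ Fintype.card k = ω (σ i))
    (h : Fin e.factorial → Fin (B' + 1) → k)
    (hh : rs R.R (fun i => (g i).map (algebraMap k Ω)) (fun i => C (ω i)) =
        bp (fun i j => algebraMap k Ω (h i j))) :
    {z : k × k | evalEval z.1 z.2 (bp h) = 0 ∧ ((bp h).map (evalRingHom z.1)).Separable}.ncard ≤
      e.factorial * ({x : k | HasType Ω (fun i => (g i).eval x) σ}.ncard + B) := by
  classical
  obtain ⟨P, hP⟩ : ∃ P : Finset (k × k), ∀ z, z ∈ P ↔ (evalEval z.1 z.2 (bp h) = 0 ∧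
      ((bp h).map (evalRingHom z.1)).Separable) :=
    ⟨Finset.univ.filter fun z => evalEval z.1 z.2 (bp h) = 0 ∧
      ((bp h).map (evalRingHom z.1)).Separable, fun z => by simp⟩
  obtain ⟨T, hT⟩ : ∃ T : Finset k, ∀ x, x ∈ T ↔ HasType Ω (fun i => (g i).eval x) σ :=
    ⟨Finset.univ.filter fun x => HasType Ω (fun i => (g i).eval x) σ, fun x => by simp⟩
  have e1 : {z : k × k | evalEval z.1 z.2 (bp h) = 0 ∧
      ((bp h).map (evalRingHom z.1)).Separable} = (P : Set (k × k)) := by
    ext z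
    exact (hP z).symm
  have e2 : {x : k | HasType Ω (fun i => (g i).eval x) σ} = (T : Set k) := by
    ext x
    exact (hT x).symm
  rw [e1, e2, Set.ncard_coe_finset, Set.ncard_coe_finset]
  have hfib : ∀ a ∈ P.image Prod.fst, (P.filter fun z => z.1 = a).card ≤ e.factorial := by
    intro a _
    have hm : ((bp h).map (evalRingHom a)).Monic := (bp_monic h).map _
    have hd : ((bp h).map (evalRingHom a)).natDegree = e.factorial := by
      rw [(bp_monic h).natDegree_map, bp_deg]
    have h1 : (P.filter fun z => z.1 = a).card ≤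
        ((bp h).map (evalRingHom a)).roots.toFinset.card := by
      refine Finset.card_le_card_of_injOn Prod.snd ?_ ?_
      · intro z hz
        rw [Finset.mem_coe, Finset.mem_filter, hP] at hz
        rw [Finset.mem_coe, Multiset.mem_toFinset, mem_roots hm.ne_zero, IsRoot.def,
          map_evalRingHom_eval, ← hz.2]
        exact hz.1.1
      · intro z hz w hw hzw
        rw [Finset.mem_coe, Finset.mem_filter] at hz hw
        exact Prod.ext (hz.2.trans hw.2.symm) hzw
    exact h1.trans ((Multiset.toFinset_card_le _).trans ((card_roots' _).trans hd.le))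
  refine (Finset.card_le_mul_card_image P _ hfib).trans (Nat.mul_le_mul_left _ ?_)
  have hsub : P.image Prod.fst ⊆ T ∪ (g (Fin.last e)).roots.toFinset := by
    intro a ha
    obtain ⟨z, hz, rfl⟩ := Finset.mem_image.1 ha
    rw [hP] at hz
    rw [Finset.mem_union]
    by_cases h0 : (g (Fin.last e)).eval z.1 = 0
    · right
      rw [Multiset.mem_toFinset, mem_roots hlast]
      exact h0
    · left
      rw [hT]
      have h2 := spec_map R g ω h hh z.1
      refine point he R (fun i => (g i).eval z.1) h0 σ ω hω ?_ z.2 ?_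
      · rw [← h2]
        exact hz.2.map
      · rw [← h2, eval_map_apply, map_evalRingHom_eval, hz.1, map_zero]
  refine (Finset.card_le_card hsub).trans ((Finset.card_union_le _ _).trans ?_)
  refine Nat.add_le_add_left ?_ _
  exact (Multiset.toFinset_card_le _).trans ((card_roots' _).trans (hg _))

theorem main : S_WB → S_ONE := by
  intro hWB e R B he
  obtain ⟨B', hB'⟩ : ∃ B' : ℕ, ∀ i, (R.R i).totalDegree * B ≤ B' :=
    ⟨Finset.univ.sup fun i => (R.R i).totalDegree * B, fun i =>
      Finset.le_sup (f := fun i => (R.R i).totalDegree * B) (Finset.mem_univ i)⟩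
  obtain ⟨C₁, hC₁⟩ := hWB e.factorial B' (Nat.factorial_pos e)
  refine ⟨C₁ + e.factorial * B, ?_⟩
  intro k Ω _ _ _ _ _ _ g σ ω hg hchar hω hirr
  obtain ⟨h, hh⟩ := descend R B g hg σ ω hω B' hB'
  have hlast : g (Fin.last e) ≠ 0 := by
    intro h0
    refine last_ne he R _ _ hirr ?_
    rw [h0, Polynomial.map_zero]
  have h1 := hC₁ k Ω h (by omega) (by rw [← hh]; exact hirr)
  have h2 := count (by omega) R g hg hlast σ ω hω h hh
  have h3 : (1 : ℝ) ≤ √(Fintype.card k : ℝ) := by
    rw [Real.one_le_sqrt]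
    exact_mod_cast Fintype.card_pos
  have h4 : (({z : k × k | evalEval z.1 z.2 (bp h) = 0 ∧
      ((bp h).map (evalRingHom z.1)).Separable}.ncard : ℕ) : ℝ) ≤
      (e.factorial : ℝ) * ((({x : k | HasType Ω (fun i => (g i).eval x) σ}.ncard : ℕ) : ℝ) + B) := by
    exact_mod_cast h2
  have h5 : (e.factorial : ℝ) * B ≤ (e.factorial : ℝ) * B * √(Fintype.card k : ℝ) :=
    le_mul_of_one_le_right (by positivity) h3
  push_cast
  nlinarith

end Pool.Agent.N803.HX.ONE
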